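import Pool.Agent.R920.PL.Law
import Pool.Agent.Y133.Half.Per

/-!
# The effective index law for de Rham-Betti classes

Let `X` be a smooth projective variety over the field of algebraic numbers of dimension `d` and with
sum of the Betti numbers `b`, such that the projector onto the even cohomology is algebraic (this is
known for all abelian varieties, surfaces and complete intersections, and for products of such
varieties). Let `g n` be the dimension of the space of the de Rham-Betti classes (the group
`H_Gr` of the Grothendieck period conjecture) in the middle degree of `X ^ (2 n + 2)`, that is, of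
codimension `(n + 1) d`, and `r n` the rank of the group of the algebraic cycles of this codimension
modulo numerical equivalence. Then:

1. `0 < r n ≤ g n ≤ (n + 2) ^ (b ^ 2) r n`: both numbers grow exponentially, but unconditionally there
   are at most polynomially many times more de Rham-Betti classes than algebraic classes.
2. For every `κ` the Grothendieck period conjecture `GPC` holds for `X ^ (κ + 1)` in all
   codimensions (and homological and numerical equivalence agree on it), or
   `g n ≥ (2 - 2 (κ + 1) b ^ (2 κ + 4) log (n + 2) / n) r n` for all `n ≥ 1`.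

So a single de Rham-Betti class on a power of `X` which is not algebraic forces an explicit
surplus of de Rham-Betti classes on all large powers; and conversely, if on one single large power
slightly more than one half of the de Rham-Betti classes is algebraic (effectively, the size
depends on `b` and `κ` only), then `GPC` holds for `X ^ (κ + 1)` in all codimensions.
-/

open CategoryTheory AlgebraicGeometry

universe u v

namespace Pool.Agent.Results.MP_bf54cf_ag.EffectiveIndexLaw

open Pool.Agent.H914 Pool.Agent.H447 Pool.Agent.W534 Pool.Agent.Y163 Pool.Agent.R940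
  Pool.Agent.Y133.Per VarClass Obj
open Pool.Agent.Y133.Half (dimOf)

variable {k : Type u} [Field k] {𝒱 : VarClass k} {ops : CycleOps 𝒱}

/-- The dimension of the space of the de Rham-Betti classes of codimension `j` on `Y`. -/
noncomputable def drbRank {W : WeilCohomology.{u, v} ops} [Algebra W.K ℂ] {F : Subfield ℂ}
    (D : DeRham W F) (Y : 𝒱.Obj) (j : ℕ) : ℕ :=
  dimOf W {c | IsDRB D Y j c}

lemma drbRank_eq {W : WeilCohomology.{u, v} ops} [Algebra W.K ℂ] {F : Subfield ℂ}
    (D : DeRham W F) (Y : 𝒱.Obj) (j : ℕ) :
    drbRank D Y j = Module.finrank W.K (Pool.Agent.R920.PL.deg (drbPred D) Y j) := by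
  have h1 : Submodule.span W.K {c | IsDRB D Y j c} =
      Pool.Agent.R920.PL.deg (drbPred D) Y j :=
    Submodule.span_eq (Pool.Agent.R920.PL.deg (drbPred D) Y j)
  rw [drbRank, dimOf, Set.finrank, h1]

/-- **The effective index law for de Rham-Betti classes.** -/
theorem result (W : WeilCohomology.{u, v} ops) [Algebra W.K ℂ] {F : Subfield ℂ} (D : DeRham W F)
    (X : 𝒱.Obj) (hX : SignStd W X) (E : X.Cycles) (hE : X.IsCyc 1 E) (hbig : Big ops X E)
    (g r : ℕ → ℕ) (hg : ∀ n, g n = drbRank D (sq X n) ((n + 1) * X.dim))
    (hr : ∀ n, r n = numRank ops (sq X n) ((n + 1) * X.dim)) :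
    (∀ n, 0 < r n ∧ r n ≤ g n ∧ g n ≤ (n + 2) ^ (Pool.Agent.R940.betti W X ^ 2) * r n) ∧
    ∀ κ, ((∀ j, GPC D (pw X κ) j) ∧ HomEqNum W (pw X κ)) ∨
      NearlyTwice (indexConst (Pool.Agent.R940.betti W X) κ) g r := by
  obtain rfl : g = fun n => drbRank D (sq X n) ((n + 1) * X.dim) := funext hg
  obtain rfl : r = fun n => numRank ops (sq X n) ((n + 1) * X.dim) := funext hr
  have h := Pool.Agent.R920.PL.pred_law (drbPred D) hX hE hbig
  simp only [← drbRank_eq] at h
  exact h

end Pool.Agent.Results.MP_bf54cf_ag.EffectiveIndexLaw
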