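import Pool.Agent.R919.DR.Main

/-!
# The period conjecture for cycles on products of an arbitrary variety with elliptic curves

Let `X` be an ARBITRARY smooth projective variety over the field `ℚ̄` of algebraic numbers, and let
`E_j` be elliptic curves over `ℚ̄` without complex multiplication which are pairwise non-isogenous
(finitely or infinitely many). Let `ϖ = (2 π i)⁻¹`, and let `P o` be the matrix of the comparison
isomorphism from the Betti cohomology `H^*(X, ℚ)` to the de Rham cohomology `H^*_dR(X / ℚ̄)` in a
rational and an algebraic basis, and `P j` the same for `H^1(E_j)`. The Poincaré duality form on
`H^*(X)` has the rational matrix `Q` and the algebraic matrix `R`, and the comparison isomorphism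
respects it up to a power of `ϖ`. A de Rham-Betti class of twist `k` is a rational class `c` such that
`(2 π i) ^ k c` lies in the algebraic de Rham cohomology (`H^{2k}_Gr`).

For the elliptic curves the following theorems on periods are used (`IsEllPeriod`, `NoHom`): the
relation of Legendre for the determinant, and, as consequences of the theorems of Schneider, Masser
and Wüstholz on linear relations between the periods of elliptic curves, that the endomorphisms
of the de Rham-Betti object `H^1(E_j)` are rational scalars, that it has no subobject of rank one
(up to twist by a complex number), and that there are no homomorphisms of de Rham-Betti objects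
between `H^1(E_i)` and `H^1(E_j)` for `i ≠ j`. Nothing is assumed on the periods of `X`.

**Theorem.** There is a set `S` of at most `b(X) / 2` exceptional indices, where `b(X) = dim H^*(X)`,
such that for all the other ones the de Rham-Betti classes on all the products
`X^a × E_1^{b_1} × ... × E_r^{b_r}` (with `E_i` not in `S`) are sums of products of de Rham-Betti classes
on `X^a` and on the `E_i^{b_i}`, and the twists of the factors add up to the twist of the class.
The conjecture holds for the powers of an elliptic curve. So if all de Rham-Betti classes on the powers
of `X` are algebraic, then the same holds for all the products `X^a × E_1^{b_1} × ... × E_r^{b_r}`, as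
soon as the at most `b(X) / 2` exceptional curves are left out.

The bound cannot be improved: take for `X` a product of some of the elliptic curves.

In Lean the tensor product over `x : κ` of the objects with the period matrices `P (f x)` is the space
of the functions on `∏ B (f x)`, where `B j` is the index set of the bases for `j`.

The proof: for a derivation `δ` of the complex numbers let `D_j = (P j)⁻¹ δ(P j)`. The tuples of the
`D_j` and their conjugates under the automorphisms of the complex numbers generate a Lie algebra `L`,
which is stable under these automorphisms, and whose derived algebra annihilates all de Rham-Betti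
classes on all tensor products. Numbers which are annihilated by all derivations are algebraic.
So rational matrices which commute with the component `L_j` are de Rham-Betti endomorphisms, and
rational lines stable under it are subobjects; from this it follows that `[L_j, L_j]` consists of all
matrices of trace zero for an elliptic curve without complex multiplication, and by Goursat's
lemma the same for finite products. For finitely many exceptional indices `i` let `x` be an
element of `[L, L]` whose components at `i` are `μ_i diag(1, -1)` for numbers `μ_i` which are linearly
independent over the rational numbers. As `x_i` is a function of the component `x_o`, the number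
`2 μ_i` is a difference of eigenvalues of `x_o`. The set of these eigenvalues is symmetric because
of the form `Q`, so it spans a space of dimension at most `dim H^*(X) / 2` over the rational numbers.
For the other indices `[L, L]` contains the matrices of trace zero at `i`, extended by zero on the
other colours which occur, and tensors killed by them are semi-invariant under `GL_2`,
in particular under `P i`.
-/

namespace Pool.Agent.Results.MP_bf54cf_ag.FewExceptionalCurves

open Pool.Agent.R919.DR Matrix

theorem result {J : Type} [DecidableEq J] {B : J → Type} [∀ j, Fintype (B j)]
    [∀ j, DecidableEq (B j)] (ϖ : ℂ) (hϖ : ϖ ≠ 0) (P : ∀ j, Matrix (B j) (B j) ℂ)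
    (hP : ∀ j, IsUnit (P j).det) (o : J) (Q : Matrix (B o) (B o) ℚ) (hQu : Q.det ≠ 0)
    (R : Matrix (B o) (B o) ℂ) (hR : IsAlg R) (w : ℤ)
    (hQ : (P o)ᵀ * R * P o = ϖ ^ w • Q.map (algebraMap ℚ ℂ))
    (h1 : ∀ j, j ≠ o → IsEllPeriod ϖ (P j))
    (h2 : ∀ i j, i ≠ o → j ≠ o → i ≠ j → NoHom (P i) (P j)) :
    ∃ S : Finset J, o ∉ S ∧ 2 * S.card ≤ Fintype.card (B o) ∧
      ∀ (κ : Type) [Fintype κ] [DecidableEq κ] [Nonempty κ] (f : κ → J), (∀ x, f x ∉ S) →
        ∀ m : ℤ, ∃ e : J → ℤ, (∑ j ∈ Finset.univ.image f, e j = m) ∧
          drbClasses ϖ P f m ≤ ∏ j ∈ Finset.univ.image f, drbClassesOf ϖ P f j (e j) :=
  main hϖ hP o Q hQu R hR w hQ h1 h2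

end Pool.Agent.Results.MP_bf54cf_ag.FewExceptionalCurves
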