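import Pool.Agent.R912.Q.AV2

set_option autoImplicit false

/-!
# The period conjecture for cycles of codimension two on abelian fourfolds without factors of type IV

Let `A` be an abelian fourfold over the field `ℚ̄` of algebraic numbers. A de Rham-Betti class in
`H^4(A)(2)` is an alternating form `φ` with rational values in four variables in `H_1(A, ℚ)` such that
`(2 π i) ^ 2 φ` is a combination with algebraic coefficients of the products of the elements of
`H^1_dR(A / ℚ̄)`. Nothing is assumed about periods: `AbVar` is the description of an abelian variety
over `ℚ̄` by theta functions (see `Pool/Agent/Y102/AVDefs.lean`, where it is explained why every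
abelian variety has it).

**Theorem.** Assume that `A` has no factor of type IV, that is, the centre of the algebra of the
endomorphisms of `A` is a product of totally real fields; equivalently the Rosati involution is
trivial on the centre. Then all de Rham-Betti classes in `H^4(A)(2)` are Hodge classes. More precisely
they are annihilated by all endomorphisms `X` of `H_1(A, ℚ)` which commute with the endomorphisms of
`A` and are skew-symmetric for the polarization (the Lie algebra of the Lefschetz group).

So the theorem covers all simple abelian fourfolds of the types I, II and III (the algebra of the
endomorphisms is `ℚ`, a real quadratic field, a totally real field of degree four, or a quaternion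
algebra over such a field), and all products of abelian varieties of smaller dimension of these types,
for example the product of an abelian threefold with `End = ℤ` and an elliptic curve without complex
multiplication, or the product of two abelian surfaces without factors with complex multiplication.
Nothing is assumed about the Hodge group. The endomorphisms here are those of the de Rham-Betti object
`H_1(A)`, and by a theorem of Bost (proved in this repository, `Pool.Agent.Y102.AbVar.hodge_end`)
these are the endomorphisms of `A`. As the classes in `H^0`, `H^2`, `H^6` and `H^8` are known (the
theorem of Bost and the theorem of hard Lefschetz) and the Hodge classes on abelian fourfolds are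
known to be algebraic, we have `GPC ^ k (A)` for all `k`.

## Proof

By the theorem of Schneider and Lang the Lie algebra `𝔥` of the endomorphisms that annihilate all
de Rham-Betti classes (in all degrees) acts semisimply on `H_1(A, ℚ)` and has the commutant `End(A)`.
As there are no factors of type IV, its centre is zero, and `U = H_1(A, ℂ)` is an orthogonal sum of
isotypic components for the semisimple Lie algebra `L = 𝔥 ⊗ ℂ`; every irreducible component `N` of
`U` is self-dual, has even dimension (it is stable under the complex structure, whose square is `-1`,
and on which it is skew-symmetric) and its weights are simple and different from zero. We have to show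
that `φ` is annihilated by the Lefschetz Lie algebra of `U`, the product of the symplectic and the
orthogonal Lie algebras of the different irreducible representations `N`. If there is only one of them
this is the case of an algebra of endomorphisms whose centre is `ℚ` (see the files `Q/Core`, …,
`Q/Main`). Otherwise the multisets of the dimensions of the irreducible representations are `2`,
`2`, …; `4`, `4`; `4`, `2`, `2`; or `6`, `2`. In all cases the quadratic or quartic terms of `φ` are
treated separately: if the weights of the different representations do not interfere in `φ` then `φ`
is annihilated by the Cartan subalgebras of all factors of the Lefschetz Lie algebra, and hence by all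
of it, by an elementary lemma on the generation of symplectic and orthogonal Lie algebras. The cases in
which they could interfere are excluded one by one, using that different irreducible representations
of dimension two which are self-dual have different weights, that the coefficients of `φ` of bidegree
`(3, 1)` give homomorphisms between the third exterior power of one representation and the other, and
that the coefficients of bidegree `(2, 2)` give homomorphisms between the second exterior powers.
-/

open Module Matrix Pool.Agent.Y102 Pool.Agent.W516.DR Pool.Agent.H204R3.GP

noncomputable section

namespace Pool.Agent.Results.MP_bf54cf_ag.FourfoldsNoTypeIV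

variable {g : ℕ} (A : AbVar g)

/-- The alternating forms in four variables in the rational homology: the elements of
`H^4(A, ℚ)`. -/
abbrev Form : Type := A.H1 [⋀^Fin 2 × Fin 2]→ₗ[ℚ] ℚ

/-- `φ` is a de Rham-Betti class in `H^4(A)(2)`. -/
def IsDRB (φ : Form A) : Prop :=
  IsDeRhamBettiForm QBar A.dR (2 * Real.pi * Complex.I) 2 φ.toMultilinearMap

/-- `φ` is a Hodge class in `H^4(A)(2)`. -/
def IsHodge (φ : Form A) : Prop :=
  IsHodgeTensor (A.per : A.H1 →+ (Fin g → ℂ)) φ.toMultilinearMap

/-- The endomorphisms of `A`, up to isogeny: the endomorphisms of `H_1(A, ℚ)` which respect the
de Rham cohomology over the field of algebraic numbers. -/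
def IsEndomorphism (P : Module.End ℚ A.H1) : Prop := IsDeRhamBettiEnd QBar A.dR P

/-- The Riemann form of the polarization, on the rational homology. -/
def polarization : A.H1 →ₗ[ℚ] A.H1 →ₗ[ℚ] ℚ := A.om

/-- `X` is skew-symmetric for the polarization. -/
def IsSkewSymmetric (X : Module.End ℚ A.H1) : Prop :=
  ∀ u v, polarization A (X u) v + polarization A u (X v) = 0

/-- There is no factor of type IV: the Rosati involution is trivial on the centre of the algebra of
the endomorphisms, that is, the centre contains no nonzero skew-symmetric element. (The centre is a
product of totally real fields and of fields with complex multiplication, on which the Rosati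
involution is the complex conjugation; the simple factors of `A` of type IV are those which
correspond to the fields of the second kind.) -/
def NoFactorOfTypeIV : Prop :=
  ∀ P, IsEndomorphism A P → (∀ Q, IsEndomorphism A Q → P * Q = Q * P) →
    IsSkewSymmetric A P → P = 0

/-- The endomorphism `X` annihilates the form `φ` (as a derivation). -/
def Annihilates (X : Module.End ℚ A.H1) (φ : Form A) : Prop :=
  ∀ v, ∑ k, φ (Function.update v k (X (v k))) = 0

/-- **The de Rham-Betti classes of degree four on abelian fourfolds without factors of type IV are
Hodge classes.** -/
theorem result (A : AbVar 4) (hA : NoFactorOfTypeIV A) (φ : Form A) (hφ : IsDRB A φ) :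
    IsHodge A φ ∧
    ∀ X : Module.End ℚ A.H1, IsSkewSymmetric A X →
      (∀ Q, IsEndomorphism A Q → X * Q = Q * X) → Annihilates A X φ := by
  have hZ' : Pool.Agent.R912.NoTypeIV A := fun P hP hc hs =>
    hA P (A.mem_EA.1 hP) (fun Q hQ => hc Q (A.mem_EA.2 hQ)) hs
  exact ⟨Pool.Agent.R912.four_hodge' A hZ' φ hφ, fun X h1 h2 =>
    Pool.Agent.R912.four_kills' A hZ' φ hφ h1 fun Q hQ => h2 Q (A.mem_EA.1 hQ)⟩

end Pool.Agent.Results.MP_bf54cf_ag.FourfoldsNoTypeIV
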