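import Pool.Agent.R912.U15

set_option autoImplicit false

/-!
# The period conjecture for cycles on all powers of the abelian varieties of even dimension n with
# multiplication by an imaginary quadratic field with the signature (1, n - 1), and of the Kuga-Satake
# varieties of K3 surfaces with imaginary quadratic multiplication

Let `A` be an abelian variety over the field `ℚ̄` of algebraic numbers. The de Rham-Betti classes on
the powers of `A` are considered as multilinear forms `φ` with rational values in `2m` variables in
`H_1(A, ℚ)` (elements of `H^1(A) ^ {⊗ 2m} (m)`), and nothing is assumed about periods: `AbVar` is the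
description of an abelian variety over `ℚ̄` by theta functions.

Let `𝔤` be the Lie algebra of the endomorphisms of `H_1(A, ℚ)` that annihilate all classes which are at
the same time Hodge classes and de Rham-Betti classes (`InLie`). By the theorem of Deligne all Hodge
classes are de Rham-Betti classes, so that `𝔤` is the Lie algebra of the Hodge group of `A`.

**Theorem.** Assume that `𝔤 ⊗ ℂ` is isomorphic to `gl(W)` with `W` of even dimension `n` and acts on
`H_1(A, ℂ)` by a sum of copies of `⊕ Λ^i W ⊗ det(W)^{-1/2}`, `i = 0, …, n` (`TypeUnitary`). Let `B` be
a direct factor of `A` up to isogeny (for example `A` itself). Then all de Rham-Betti classes in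
`H^1(B) ^ {⊗ 2m} (m)` are Hodge classes, for all `m`.

The hypothesis is expressed by creation and annihilation operators: there are endomorphisms
`a 1, …, a n` and `b 1, …, b n` of `H_1(A, ℂ)` with `a i * a j = - a j * a i`,
`b i * b j = - b j * b i`, `a i * b j + b j * a i = δ i j`, and `𝔤 ⊗ ℂ` is spanned by the endomorphisms
`a i * b j - δ i j / 2`.

## Abelian varieties of signature (1, n - 1)

Let `B` be an abelian variety over `ℚ̄` of even dimension `n ≥ 4` whose algebra of endomorphisms is an
imaginary quadratic field `E` which acts on the tangent space with the signature `(1, n - 1)`; this is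
the general case for this signature. By a theorem of Ribet the Hodge group is the full unitary group.
Then `B` is a factor of a variety `A` as in the theorem: let `E_0` be the elliptic curve with complex
multiplication by `E` for which `E` acts on the tangent space like on the part of rank `n - 1`; the
Hodge structure `T = Hom_E(H_1(E_0), H_1(B))` is of K3 type, and the Kuga-Satake variety `A` of `T` is
isogenous to a product of abelian varieties with the homology `Λ^i_E W ⊗ det(W)^{-1/2}`, `i = 0, …, n`,
(`W = T` as a space over `E`), where the part for `i = 1` is `H_1(B)` and the part for `i = 0` is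
`H_1(E_0)`. It is defined over `ℚ̄`, by the theory of the Shimura varieties for `U(1, n - 1)` and
`SO(2, 2n - 2)`. The Hodge classes on the powers of `B` are generated by divisor classes (they are
invariants of a unitary group), and so they are algebraic: the theorem gives `GPC ^ i (B ^ N)` for all
`i` and all `N`, without hypothesis on the field `E` or on the periods.

## Kuga-Satake varieties

Let `T` be a polarised Hodge structure of K3 type over `ℚ` (for example the transcendental lattice of a
K3 surface) whose field `E` of endomorphisms is an imaginary quadratic field, and let `n` be the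
dimension of `T` over `E`. By the theorem of Zarhin the Hodge group of `T` is the unitary group
`U_E(T)`, and `T ⊗ ℂ` is the sum of two isotropic spaces `W` and `W^∨` of dimension `n`; the Lie algebra
of the Hodge group is `gl(W)` over `ℂ`. The first homology of the Kuga-Satake variety `A` of `T` is the
even Clifford algebra `C⁺(T)`, with the Lie algebra of the Hodge group of `T` acting by left
multiplication. Let `e_i` be a basis of `W`, let `f_i` be the dual basis of `W^∨`, let `e` be a vector
with `e² = 1`, and let `a i`, `b i` be the endomorphisms `x ↦ e_i x e`, `x ↦ f_i x e` of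
`C⁺(T ⊗ ℂ)`. Then `a i * b j - δ i j / 2` is the left multiplication by `(e_i f_j - f_j e_i) / 2`, and
the hypothesis is satisfied if `n` is even. So for all K3 surfaces `X` over `ℚ̄` whose field `E` is
imaginary quadratic and with `T` of rank divisible by four, all de Rham-Betti classes on all powers of
the Kuga-Satake variety are Hodge classes; by the theorems of Deligne and André (the Kuga-Satake
correspondence is motivated) the same holds for all powers of `X`.
`KugaSatake` treats the K3 surfaces for which `E` is totally real.

## Proof

By the theorem of Schneider and Lang (all subobjects of the de Rham-Betti object `H_1(A)` are abelian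
subvarieties) the Lie algebra `𝔥` of the endomorphisms that annihilate all de Rham-Betti classes is a
subalgebra of `𝔤` which acts semisimply on `H_1(A, ℚ)` and has the same commutant. So the following
statement is needed (`R912.Hyp.main`, there for sums of several `gl(W_σ)`): a reductive Lie subalgebra
`𝔥` of `gl(W)` for which the exterior powers of `W` (with the twist by `det(W)^{-1/2}`) are irreducible
and not isomorphic to each other contains `sl(W)`, if the dimension is even. (For odd dimensions this is
false: the group `SO(n)` together with the scalars is a counterexample.) The proof does not use the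
classification of the representations with irreducible exterior powers. One considers the weights of
`W` for a Cartan subalgebra of `𝔥` and, for a generic ordering, the state in which the places above a
given place are occupied. It is a vector of highest weight, and so all the states with weights close to
its weight are obtained from it by few root vectors of `𝔥`; by a choice of the ordering which is
lexicographic with respect to a line or a plane one sees that the weights of `W` are different, that at
most three of them are on a line, that their differences on a line are the multiples of a root, that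
three weights on a line occur only if the set of the weights is symmetric with respect to the one in
the middle (so that `n` is odd), and then that all differences of weights are roots and are pairwise
different. Then the root vectors are multiples of the `a i * b j`. Finally the centre of `𝔤` is
contained in `𝔥`, since the product of all the `a i` commutes with `sl(W)` and not with `gl(W)`.
-/

open Module Matrix Pool.Agent.Y102 Pool.Agent.W516.DR Pool.Agent.H204R3.GP

noncomputable section

namespace Pool.Agent.Results.MP_bf54cf_ag.UnitaryKugaSatake

variable {g : ℕ} (A : AbVar g)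

/-- The multilinear forms in `2m` variables in the rational homology. -/
abbrev Form (m : ℕ) : Type := MultilinearMap ℚ (fun _ : Fin m × Fin 2 => A.H1) ℚ

/-- `φ` is a de Rham-Betti class in `H^1(A) ^ {⊗ 2m} (m)`. -/
def IsDRB {m : ℕ} (φ : Form A m) : Prop :=
  IsDeRhamBettiForm QBar A.dR (2 * Real.pi * Complex.I) m φ

/-- `φ` is a Hodge class in `H^1(A) ^ {⊗ 2m} (m)`. -/
def IsHodge {m : ℕ} (φ : Form A m) : Prop := IsHodgeTensor (A.per : A.H1 →+ (Fin g → ℂ)) φ

/-- The endomorphism `X` annihilates the form `φ` (as a derivation). -/
def Annihilates {m : ℕ} (X : Module.End ℚ A.H1) (φ : Form A m) : Prop :=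
  ∀ v, ∑ k, φ (Function.update v k (X (v k))) = 0

/-- `X` is in the Lie algebra `𝔤`: it annihilates all classes that are Hodge classes and
de Rham-Betti classes. -/
def InLie (X : Module.End ℚ A.H1) : Prop :=
  ∀ (m : ℕ) (φ : Form A m), IsHodge A φ → IsDRB A φ → Annihilates A X φ

/-- The algebra of the endomorphisms of `H_1(A, ℂ)`, as matrices for the basis of the lattice. -/
abbrev EndC (_ : AbVar g) : Type := Matrix (Fin (2 * g)) (Fin (2 * g)) ℂ

/-- The matrix of the extension of an endomorphism of `H_1(A, ℚ)` to `H_1(A, ℂ)`. -/
def toC (X : Module.End ℚ A.H1) : EndC A := Matrix.of fun i j => (X (Pi.single j 1) i : ℂ)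

/-- The complex Lie algebra `𝔤 ⊗ ℂ`, acting on `H_1(A, ℂ)`. -/
def lieC : Submodule ℂ (EndC A) := Submodule.span ℂ {Y | ∃ X, InLie A X ∧ Y = toC A X}

/-- The `a i` and the `b i` are creation and annihilation operators acting on `H_1(A, ℂ)`. -/
def Canonical {N : ℕ} (a b : Fin N → EndC A) : Prop :=
  (∀ i j, a i * a j = -(a j * a i)) ∧ (∀ i j, b i * b j = -(b j * b i)) ∧
    ∀ i j, a i * b j + b j * a i = if i = j then 1 else 0

/-- The Lie algebra `𝔤 ⊗ ℂ` is `gl(W)` with `W` of even dimension `n`, acting by the exterior powers,
twisted by the inverse of the square root of the determinant. -/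
def TypeUnitary : Prop :=
  ∃ (n : ℕ) (a b : Fin n → EndC A), Even n ∧ Canonical A a b ∧
    lieC A = Submodule.span ℂ {Y | ∃ i j, Y = a i * b j - if i = j then (2⁻¹ : ℂ) • 1 else 0}

/-- `f` is a homomorphism (up to isogeny) from `B` to `A`: it is given by a linear map of the tangent
spaces, and the pull backs of the algebraic differential forms are algebraic. -/
def IsHomomorphism {g' : ℕ} (B : AbVar g') (f : B.H1 →ₗ[ℚ] A.H1) : Prop :=
  (∃ F : (Fin g' → ℂ) →ₗ[ℂ] (Fin g → ℂ), ∀ w, F (B.per w) = A.per (f w)) ∧
    ∃ e : Fin g ⊕ Fin g → Fin g' ⊕ Fin g' → QBar,
      ∀ i w, A.dR i (f w) = ∑ j, algebraMap QBar ℂ (e i j) * B.dR j w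

/-- `B` is a direct factor of `A` up to isogeny. -/
def IsFactor {g' : ℕ} (B : AbVar g') : Prop :=
  ∃ (f : B.H1 →ₗ[ℚ] A.H1) (p : A.H1 →ₗ[ℚ] B.H1), IsHomomorphism A B f ∧ IsHomomorphism B A p ∧
    ∀ w, p (f w) = w

/-- **All de Rham-Betti classes are Hodge classes for the factors of abelian varieties of unitary
type.** -/
theorem result (g : ℕ) (A : AbVar g) (h : TypeUnitary A) (g' : ℕ) (B : AbVar g')
    (hB : IsFactor A B) (m : ℕ) (φ : Form B m) (hφ : IsDRB B φ) : IsHodge B φ := by
  obtain ⟨n, a, b, hn, ⟨aa, bb, ab⟩, hl⟩ := h
  have hev : ∀ i : Fin n, Even (Finset.univ.filter fun j => (fun _ => 0 : Fin n → Fin 1) j =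
      (fun _ => 0 : Fin n → Fin 1) i).card := by
    intro i
    simpa using hn
  have hl' : lieC A = Submodule.span ℂ {Y | ∃ i j, (fun _ => 0 : Fin n → Fin 1) i =
      (fun _ => 0 : Fin n → Fin 1) j ∧ Y = Pool.Agent.R912.gM a b i j} := by
    rw [hl]
    congr 1
    ext Y
    constructor
    · rintro ⟨i, j, hY⟩
      exact ⟨i, j, rfl, hY⟩
    · rintro ⟨i, j, -, hY⟩
      exact ⟨i, j, hY⟩
  obtain ⟨f, p, hf, hp, hpf⟩ := hB
  exact Pool.Agent.R912.hodge_factor ⟨hf.1, hf.2⟩ ⟨hp.1, hp.2⟩ hpf (fun ψ hψ =>
    Pool.Agent.R912.hodge_unitary1 aa bb ab hev hl' (fun i j => rfl) hψ) hφ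

end Pool.Agent.Results.MP_bf54cf_ag.UnitaryKugaSatake
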